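import Mathlib
import Pool.Agent.P.MP_1e6486_lc.Defs
import Pool.Agent.P.MP_1e6486_lc.Main

namespace Pool.Agent.Results.MP_1e6486_lc.NoEOLForm

open Pool.Agent.P.MP_1e6486_lc

/-- If the s-grammatical family of a context-free grammar form `G` is not contained in the family
of linear languages (in particular if it strictly contains it), then no EOL form `H` generates
the same family. -/
theorem result (G : Grammar) (hG : IsCF G) (hlin : ¬ FamLE (famS G) famLIN) :
    ¬ ∃ H : Grammar, IsEOL H ∧ FamEq (famEOL H) (famS G) := by
  have _ := hG
  rintro ⟨H, _, h⟩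
  exact hlin (famS_le_lin h)

end Pool.Agent.Results.MP_1e6486_lc.NoEOLForm
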